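import Pool.Agent.Helper8_BRW.Stmts

/-!
# Squad BRW, modules SCL and SCL2
-/

set_option autoImplicit false

open MeasureTheory Set Filter

namespace BRW.H42

open BRW

theorem lin_cont {ξ : ℤ → ℝ} {b : ℝ} {y : ℤ} {h : ℝ → ℤ → ℝ} (hh : IsLin ξ b y h) (x : ℤ) :
    ContinuousOn (fun s => h s x) (Ici 0) := by
  rcases lt_or_ge x y with hx | hx
  · intro t ht
    exact (hh.deriv t x ht hx).continuousWithinAt
  · refine (continuousOn_const (c := (1 : ℝ))).congr fun t ht => ?_
    exact hh.bdry t x ht hx

theorem scl (hmax : MaxStmt) (hcru : CRUStmt) : SCLStmt := by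
  intro a b ξ he y h hh θ t n hθ0 hθ1 ht
  have hb : 0 ≤ b := by
    have := (he.2 0).1.trans (he.2 0).2
    linarith [he.1]
  -- the rescaled function
  let g : ℝ → ℤ → ℝ := fun t x => θ ^ (x - y) * Real.exp (-((1 - θ) * t)) * h (θ * t) x
  let δ : ℝ → ℤ → ℝ := fun t x => if x < y then g t x - h t x else 0
  have hg0 : ∀ t x, 0 ≤ t → 0 ≤ g t x := fun t x ht =>
    mul_nonneg (mul_nonneg (zpow_nonneg hθ0.le _) (Real.exp_pos _).le)
      (hh.nonneg _ _ (mul_nonneg hθ0.le ht))
  have key : ∀ t x, 0 ≤ t → x < y → δ t x ≤ 0 := by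
    intro T x0 hT hx0
    refine hmax δ T b (Real.exp ((b + 1) * T)) (fun _ => 0) hb (fun _ => le_rfl) ?_ ?_ ?_ ?_ T x0 hT
      le_rfl
    · -- bounded above
      intro t x ht htT
      by_cases hx : x < y
      · have hr : 1 ≤ θ⁻¹ := (one_le_inv₀ hθ0).2 hθ1
        have h1 := (hcru a b ξ he y θ⁻¹ hr).2.2.1 h hh (θ * t) x (mul_nonneg hθ0.le ht)
        have h2 : g t x ≤ Real.exp ((b + 1) * T) := by
          calc g t x ≤ θ ^ (x - y) * Real.exp (-((1 - θ) * t)) *
                (Real.exp ((b + θ⁻¹ / 2) * (θ * t)) * θ⁻¹ ^ (x - y)) :=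
              mul_le_mul_of_nonneg_left h1
                (mul_nonneg (zpow_nonneg hθ0.le _) (Real.exp_pos _).le)
            _ = (θ ^ (x - y) * θ⁻¹ ^ (x - y)) *
                (Real.exp (-((1 - θ) * t)) * Real.exp ((b + θ⁻¹ / 2) * (θ * t))) := by ring
            _ = Real.exp (-((1 - θ) * t) + (b + θ⁻¹ / 2) * (θ * t)) := by
              rw [← mul_zpow, mul_inv_cancel₀ hθ0.ne', one_zpow, one_mul, ← Real.exp_add]
            _ ≤ Real.exp ((b + 1) * T) := by
              apply Real.exp_le_exp.2
              have e1 : (b + θ⁻¹ / 2) * (θ * t) = b * (θ * t) + t / 2 := by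
                field_simp
              rw [e1]
              have e2 : θ * t ≤ T := by nlinarith
              have e3 : b * (θ * t) ≤ b * T := mul_le_mul_of_nonneg_left e2 hb
              nlinarith
        have h3 : δ t x = g t x - h t x := if_pos hx
        rw [h3]
        have := hh.nonneg t x ht
        linarith
      · have h3 : δ t x = 0 := if_neg hx
        rw [h3]
        exact (Real.exp_pos _).le
    · -- initial values
      intro t x ht _ ht0
      have ht' : t = 0 := le_antisymm ht0 ht
      subst ht'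
      by_cases hx : x < y
      · have h3 : δ 0 x = g 0 x - h 0 x := if_pos hx
        have h4 : g 0 x = θ ^ (x - y) * Real.exp (-((1 - θ) * 0)) * h (θ * 0) x := rfl
        rw [h3, h4, mul_zero θ, hh.init x hx]
        simp
      · exact (if_neg hx : δ 0 x = 0).le
    · -- continuity
      intro x
      by_cases hx : x < y
      · have h3 : (fun t => δ t x) = fun t => g t x - h t x := by
          funext t; exact if_pos hx
        rw [h3]
        have hc := lin_cont hh x
        refine ContinuousOn.sub ?_ (hc.mono Icc_subset_Ici_self)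
        refine ContinuousOn.mul (by fun_prop) ?_
        have : (fun t => h (θ * t) x) = (fun s => h s x) ∘ (fun t => θ * t) := rfl
        rw [this]
        refine hc.comp (by fun_prop) ?_
        intro s hs
        exact mul_nonneg hθ0.le hs.1
      · have h3 : (fun t => δ t x) = fun _ => 0 := by
          funext t; exact if_neg hx
        rw [h3]
        exact continuousOn_const
    · -- derivative
      intro t x ht _ hpos
      have hx : x < y := by
        by_contra hx
        rw [show δ t x = 0 from if_neg hx] at hpos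
        exact lt_irrefl _ hpos
      have h3 : (fun t => δ t x) = fun t => g t x - h t x := by
        funext t; exact if_pos hx
      have ht0 : 0 ≤ t := ht
      have hθt : 0 ≤ θ * t := mul_nonneg hθ0.le ht0
      have d1 := (hh.deriv t x ht0 hx).mono (Ici_subset_Ici.2 ht0)
      have d2 : HasDerivWithinAt (fun r : ℝ => h (θ * r) x)
          ((lap (h (θ * t)) x + ξ x * h (θ * t) x) * θ) (Ici t) t := by
        have e1 := hh.deriv (θ * t) x hθt hx
        have e2 : HasDerivWithinAt (fun r : ℝ => θ * r) θ (Ici t) t := by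
          simpa using (hasDerivWithinAt_id t (Ici t)).const_mul θ
        exact HasDerivWithinAt.comp t e1 e2 (fun r hr => mul_nonneg hθ0.le (ht0.trans hr))
      have d3 : HasDerivWithinAt (fun r : ℝ => Real.exp (-((1 - θ) * r)))
          (Real.exp (-((1 - θ) * t)) * (-(1 - θ))) (Ici t) t := by
        have e2 : HasDerivWithinAt (fun r : ℝ => -((1 - θ) * r)) (-(1 - θ)) (Ici t) t := by
          have h0 := (hasDerivWithinAt_id t (Ici t)).const_mul (-(1 - θ))
          have e : (fun r : ℝ => -(1 - θ) * id r) = fun r : ℝ => -((1 - θ) * r) := by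
            funext r; simp only [id]; ring
          rw [e, mul_one] at h0
          exact h0
        exact e2.exp
      have d4 : HasDerivWithinAt (fun r => g r x)
          (θ ^ (x - y) * (Real.exp (-((1 - θ) * t)) * (-(1 - θ))) * h (θ * t) x +
            θ ^ (x - y) * Real.exp (-((1 - θ) * t)) *
              ((lap (h (θ * t)) x + ξ x * h (θ * t) x) * θ)) (Ici t) t :=
        (d3.const_mul (θ ^ (x - y))).mul d2
      refine ⟨_, by rw [h3]; exact d4.sub d1, ?_⟩
      -- the inequality
      have hδ : δ t x = g t x - h t x := if_pos hx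
      have hgx : g t x = θ ^ (x - y) * Real.exp (-((1 - θ) * t)) * h (θ * t) x := rfl
      have hz1 : θ ^ (x + 1 - y) = θ ^ (x - y) * θ := by
        rw [show x + 1 - y = (x - y) + 1 by ring, zpow_add_one₀ hθ0.ne']
      have hz2 : θ ^ (x - y) = θ ^ (x - 1 - y) * θ := by
        rw [show x - y = (x - 1 - y) + 1 by ring, zpow_add_one₀ hθ0.ne']
      set E := Real.exp (-((1 - θ) * t)) with hE
      have hEpos : 0 < E := Real.exp_pos _
      have hE1 : E ≤ 1 := by
        rw [hE]
        apply Real.exp_le_one_iff.2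
        have : 0 ≤ (1 - θ) * t := mul_nonneg (by linarith) ht0
        linarith
      have hgp : g t (x + 1) = θ ^ (x - y) * θ * E * h (θ * t) (x + 1) := by
        show θ ^ (x + 1 - y) * E * h (θ * t) (x + 1) = _
        rw [hz1]
      have hgm : θ ^ (x - y) * θ * E * h (θ * t) (x - 1) = θ ^ 2 * g t (x - 1) := by
        show _ = θ ^ 2 * (θ ^ (x - 1 - y) * E * h (θ * t) (x - 1))
        rw [hz2]; ring
      have hm0 := hg0 t (x - 1) ht0
      have hx0' := hg0 t x ht0
      have hθ2 : θ ^ 2 ≤ 1 := pow_le_one₀ hθ0.le hθ1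
      -- neighbours
      have hp : g t (x + 1) - h t (x + 1) ≤ max (δ t (x + 1)) 0 := by
        by_cases hx1 : x + 1 < y
        · rw [show δ t (x + 1) = g t (x + 1) - h t (x + 1) from if_pos hx1]
          exact le_max_left _ _
        · refine le_trans ?_ (le_max_right _ _)
          have hxy : x + 1 = y := by omega
          rw [hh.bdry t (x + 1) ht0 (by omega)]
          have e1 : g t (x + 1) = θ ^ (x + 1 - y) * E * h (θ * t) (x + 1) := rfl
          rw [e1, hh.bdry (θ * t) (x + 1) hθt (by omega), show x + 1 - y = 0 by omega, zpow_zero]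
          linarith
      have hm : g t (x - 1) - h t (x - 1) ≤ max (δ t (x - 1)) 0 := by
        rw [show δ t (x - 1) = g t (x - 1) - h t (x - 1) from if_pos (by omega)]
        exact le_max_left _ _
      have hξ1 := (he.2 x).1
      have hξ2 := (he.2 x).2
      have hapos := he.1
      have hexp : θ ^ (x - y) * (E * (-(1 - θ))) * h (θ * t) x +
            θ ^ (x - y) * E * ((lap (h (θ * t)) x + ξ x * h (θ * t) x) * θ)
          = (g t (x + 1) + θ ^ 2 * g t (x - 1)) / 2 - g t x + θ * ξ x * g t x := by
        rw [hgp, ← hgm, hgx, lap]; ring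
      rw [hexp, lap, hδ]
      rw [hδ] at hpos
      have h5 : θ ^ 2 * g t (x - 1) ≤ g t (x - 1) := mul_le_of_le_one_left hm0 hθ2
      have h6 : θ * ξ x * g t x ≤ ξ x * g t x := by
        have : θ * ξ x ≤ ξ x := mul_le_of_le_one_left (by linarith) hθ1
        exact mul_le_mul_of_nonneg_right this hx0'
      have h7 : ξ x * (g t x - h t x) ≤ b * (g t x - h t x) :=
        mul_le_mul_of_nonneg_right hξ2 hpos.le
      nlinarith
  rcases Nat.eq_zero_or_pos n with hn | hn
  · subst hn
    simp only [Nat.cast_zero, sub_zero, pow_zero, one_mul]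
    rw [hh.bdry _ y (mul_nonneg hθ0.le ht) le_rfl, hh.bdry t y ht le_rfl, mul_one]
    exact Real.one_le_exp (mul_nonneg (by linarith) ht)
  · have hx : y - (n : ℤ) < y := by
      have : (0 : ℤ) < n := by exact_mod_cast hn
      omega
    have h1 := key t (y - n) ht hx
    rw [show δ t (y - n) = g t (y - n) - h t (y - n) from if_pos hx] at h1
    have h2 : g t (y - n) = θ ^ (-(n : ℤ)) * Real.exp (-((1 - θ) * t)) * h (θ * t) (y - n) := by
      show θ ^ (y - (n : ℤ) - y) * _ * _ = _
      rw [show y - (n : ℤ) - y = -(n : ℤ) by ring]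
    rw [h2, zpow_neg, zpow_natCast] at h1
    have hθn : 0 < θ ^ n := pow_pos hθ0 n
    have hE : 0 < Real.exp ((1 - θ) * t) := Real.exp_pos _
    have h3 : (θ ^ n)⁻¹ * Real.exp (-((1 - θ) * t)) * h (θ * t) (y - n) ≤ h t (y - n) := by linarith
    calc h (θ * t) (y - n)
        = θ ^ n * Real.exp ((1 - θ) * t) *
            ((θ ^ n)⁻¹ * Real.exp (-((1 - θ) * t)) * h (θ * t) (y - n)) := by
          rw [Real.exp_neg]
          field_simp
      _ ≤ _ := mul_le_mul_of_nonneg_left h3 (by positivity)

theorem scl2 (hscl : SCLStmt) : SCL2Stmt := by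
  intro a b ξ he y h hh r t n hn hr0 hrt ht
  have hhn := hh.nonneg t (y - n) ht.le
  rcases eq_or_lt_of_le hr0 with hr | hr
  · rw [← hr, hh.init _ (by
      have : (0 : ℤ) < n := by exact_mod_cast hn
      omega)]
    positivity
  · have hθ0 : 0 < r / t := div_pos hr ht
    have hθ1 : r / t ≤ 1 := (div_le_one ht).2 hrt
    have h1 := hscl a b ξ he y h hh (r / t) t n hθ0 hθ1 ht.le
    rw [div_mul_cancel₀ r ht.ne'] at h1
    refine h1.trans (mul_le_mul_of_nonneg_right ?_ hhn)
    have h2 : r / t ≤ Real.exp (-((t - r) / t)) := by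
      have := Real.add_one_le_exp (-((t - r) / t))
      have e : -((t - r) / t) + 1 = r / t := by field_simp; ring
      rwa [e] at this
    have h3 : (r / t) ^ n ≤ Real.exp (-((t - r) / t)) ^ n := pow_le_pow_left₀ hθ0.le h2 n
    rw [← Real.exp_nat_mul] at h3
    calc (r / t) ^ n * Real.exp ((1 - r / t) * t)
        ≤ Real.exp (n * -((t - r) / t)) * Real.exp ((1 - r / t) * t) :=
          mul_le_mul_of_nonneg_right h3 (Real.exp_pos _).le
      _ = Real.exp (-((n / t - 1) * (t - r))) := by
          rw [← Real.exp_add]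
          congr 1
          field_simp
          ring

end BRW.H42
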